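import Pool.Agent.Lib.MP_7cecc1_co.SL.Final

namespace Pool.Agent.Results.MP_7cecc1_co.ExactExponents

open Pool.Agent.Lib.MP_7cecc1_co

/-- The critical exponents of the three classes of acyclic digraphs: `α₀(W) = 3/5`, `α₀(M) = 3/5`
and `α₀(S) = 5/7`. For `W` and `M` the good exponents are exactly those in `(0, 3/5]`; for `S`
all exponents in `(0, 5/7)` are good and none above `5/7` is. -/
theorem result :
    alpha0 @Weighted = 3 / 5 ∧ alpha0 @Multi = 3 / 5 ∧ alpha0 @Simple = 5 / 7 ∧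
      goodExponents @Weighted = Set.Ioc 0 (3 / 5) ∧ goodExponents @Multi = Set.Ioc 0 (3 / 5) ∧
      Set.Ioo 0 (5 / 7) ⊆ goodExponents @Simple ∧ goodExponents @Simple ⊆ Set.Ioc 0 (5 / 7) := by
  have hW : goodExponents @Weighted = Set.Ioc 0 (3 / 5) := by
    ext α
    exact ⟨fun h => ⟨h.1, multi_le multi_weighted h⟩,
      fun h => mem_good (fun _ hw => hw) h.1 h.2⟩
  have hM : goodExponents @Multi = Set.Ioc 0 (3 / 5) := by
    ext α
    exact ⟨fun h => ⟨h.1, multi_le (fun _ hw => hw) h⟩,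
      fun h => mem_good multi_weighted h.1 h.2⟩
  refine ⟨?_, ?_, SL.alpha0_simple, hW, hM, fun α h => SL.simple_lower h.1 h.2,
    fun α h => ⟨h.1, simple_le h⟩⟩
  · unfold alpha0
    rw [hW]
    exact csSup_Ioc (by norm_num)
  · unfold alpha0
    rw [hM]
    exact csSup_Ioc (by norm_num)

end Pool.Agent.Results.MP_7cecc1_co.ExactExponents
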